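import Pool.Agent.H23UN.Main

/-!
# Nori's conjecture on the detection of cycles: undetected cycles vanish or form large families

For a smooth projective complex variety `X` let `N^j(X)` be the group of the classes in `CH^j(X)_ℚ`
whose restrictions to (resolutions of) all subvarieties of dimension `j` of `X` vanish. Nori's
conjecture says that `N^j(X) = 0` for all `X` and `j`. We show:

1. (One variety.) `N^j(X) = 0` if for some `m ≥ 1` the groups `N^(j+m)` of the varieties
   `X × E_1 × ... × E_m`, `E_i` elliptic curves, do not contain uncountable families of order `m`, that is,
   of classes `f_*((p_1 - q_1) × ... × (p_m - q_m))`, where `p_i, q_i` are points of `E_i` and `f` is a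
   correspondence from `E_1 × ... × E_m`. For instance, if these groups are countable, or (`m = 2`)
   representable.
2. Nori's conjecture holds (for all `X` and `j`) if and only if for infinitely many `j` there is
   `m ≥ 1` such that the groups `N^(j+m)(X)` do not contain uncountable families of order `m`, for all
   `X`; if and only if for infinitely many `j` the groups `N^j(X)` are countable for all `X`.
3. Nori's conjecture holds if and only if no class `x ≠ 0` in the groups `N^j(X)` comes from one fixed
   elliptic curve `E` (or from each of finitely many given curves of positive genus): that is, is a
   sum of classes `f_*(p - q)`, `f` a correspondence from `E` to `X`, `p, q` points of `E`. So the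
   conjecture need only be tested on very special algebraically trivial cycles.
4. Nori's conjecture in one codimension `l`, for all `X`, implies it in all codimensions `j ≤ l`.

So if the conjecture is false then the groups `N^j(X)` are, for all large `j` and some `X` (depending on
`j`), infinite-dimensional in the sense of Mumford.

Proof. The groups `N^j(X)` are stable under all correspondences `f` from `X` to `Y`: let `f` be of
degree `c` and `Z → Y` a resolution of a subvariety of dimension `j + c`. The correspondence from `X`
to `Z` is a combination of subvarieties of `X × Z` of dimension `j`, whose images in `X` have a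
dimension at most `j`; by resolution of singularities it factors through restrictions to
subvarieties of `X` of dimension `j`. Let `x` be in `N^j(X)`. If `p`, `q` are points of a curve `E` then
`x × (p - q)` is in `N^(j+1)(X × E)`. If all these classes vanish then the correspondence `x × Δ_E` from
`E` to `X × E` is, up to a constant one, supported on finitely many fibres, by the theorem of Bloch
and Srinivas; its trace over `E` is `-2g x`, and on the other side one finds that `x` is a sum of
classes `f_*(p - q)`. By the property `Separated` this is impossible for all elliptic curves `E` if
`x ≠ 0`.

The setting: `C` is the category of the smooth projective complex varieties with the Chow groups of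
`X × Y` with rational coefficients as morphisms (all codimensions), `R` is the Betti cohomology (with
its grading mod 2), `G.deg` are the degrees of the correspondences; the other parts of `G` are not used.
`Restr` contains the dimension and the restrictions to subvarieties with their known properties.
`D l` are the elliptic curves. `Curve.Laws` contains the duality, the trace formula (the
self-intersection of the diagonal is `2 - 2g`), `g > 0`, and the theorem of Bloch and Srinivas.
`Baire`: if the classes `f_* p` form a countable set then they are all equal (the points `p` with a
given class `f_* p` form a countable union of closed subsets of `E`). `Separated`: the class `x`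
vanishes if it is a sum of classes `f_* (p - q)` for each elliptic curve `E`. Proof of this last
property: let `X` and `x` be defined over the field `k`, finitely generated over `ℚ`. Choose `E` with an
invariant `j(E)` which is transcendental over `k`. Specialise the curve `E` and the correspondences to a
point where `j = ∞`: then `E` becomes a cycle of rational curves, on which any two points are
rationally equivalent, so the classes `f_* p - f_* q` become `0`, whereas `x` does not change.

Author: helper23.
-/

set_option autoImplicit false

open CategoryTheory MonoidalCategory Module Filter
open Pool.Agent.Y112.SR Pool.Agent.H23OB Pool.Agent.H23CT Pool.Agent.H23UN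

namespace Pool.Agent.Results.MP_c78f90_ag.UncountableOrZero

universe v u w t

/-- Undetected cycles vanish, or they form uncountable families of each order in all large
codimensions; and it is enough to consider undetected cycles which come from one curve. -/
theorem result {C : Type u} [Category.{v} C] [Preadditive C] [MonoidalCategory C]
    [MonoidalPreadditive C] [SymmetricCategory C] [Linear ℚ C] [MonoidalLinear ℚ C]
    {K : Type w} [Field K] [Algebra ℚ K] (R : SuperRealisation C K) (G : Cycles R)
    (dim : C → ℕ) (res : ∀ X Z : C, Set (X ⟶ Z)) (hG : Restr G dim res)
    {ι : Type t} (D : ι → Curve C) (hD : ∀ l, (D l).Laws G) :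
    (∀ s : Finset ι, (∀ (X : C) (j : ℕ), und G dim res X j = ⊥) ↔
      ∀ (X : C) (j : ℕ), ∀ x ∈ und G dim res X j, (∀ l ∈ s, x ∈ (D l).img X) → x = 0) ∧
    ((∀ l, (D l).Baire) → Separated D →
      (∀ (X : C) (j m : ℕ), (∀ L : List ι, L.length = m + 1 → ∀ f : pw D L ⟶ ext D X L,
        (∀ z ∈ diffs D L, z ≫ f ∈ und G dim res (ext D X L) (j + (m + 1))) →
          {y | ∃ z ∈ diffs D L, y = z ≫ f}.Countable) → und G dim res X j = ⊥) ∧
      ((∀ (X : C) (j : ℕ), und G dim res X j = ⊥) ↔
        ∃ᶠ j : ℕ in atTop, ∃ m, Thin D (InUnd G dim res) (m + 1) (j + (m + 1))) ∧
      ((∀ (X : C) (j : ℕ), und G dim res X j = ⊥) ↔
        ∃ᶠ j : ℕ in atTop, ∀ X : C, (und G dim res X j : Set (𝟙_ C ⟶ X)).Countable) ∧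
      ∀ l : ℕ, (∀ X : C, und G dim res X l = ⊥) → ∀ j ≤ l, ∀ X : C, und G dim res X j = ⊥) :=
  ⟨und_iff_imgs hG hD, fun hB hS => ⟨und_of_ext hG hD hB hS, und_iff_thin hG hD hB hS,
    und_iff_countable hG hD hB hS, fun _ h => und_mono hG hD hS h⟩⟩

end Pool.Agent.Results.MP_c78f90_ag.UncountableOrZero
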